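import Mathlib

set_option autoImplicit false

open scoped ENNReal

namespace Pool.Agent.Y942.NC

/-- A multiple-unicast network: a finite directed graph (every edge of capacity one) with a
finite family of source-sink pairs. -/
structure Network where
  /-- vertices -/
  V : Type
  /-- the edge relation of the directed graph -/
  Adj : V → V → Prop
  /-- the index set of the source-sink pairs -/
  I : Type
  /-- sources -/
  s : I → V
  /-- sinks -/
  t : I → V
  finV : Finite V
  finI : Fintype I

attribute [instance] Network.finV Network.finI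

/-- the edges of the network -/
def Network.Edge (N : Network) : Type := {p : N.V × N.V // N.Adj p.1 p.2}

/-- tail of an edge -/
def Network.tail {N : Network} (e : N.Edge) : N.V := e.1.1

/-- head of an edge -/
def Network.head {N : Network} (e : N.Edge) : N.V := e.1.2

/-- the network has no directed cycle -/
def Network.Acyclic (N : Network) : Prop :=
  ∀ v : N.V, ¬ Relation.TransGen N.Adj v v

/-- `M` is a multicut: after deleting the edges in `M` no source reaches its own sink. -/
def Network.IsMulticut (N : Network) (M : Set N.Edge) : Prop :=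
  ∀ i : N.I, ¬ Relation.ReflTransGen
    (fun u v => ∃ e : N.Edge, e ∉ M ∧ N.tail e = u ∧ N.head e = v) (N.s i) (N.t i)

/-- `MC(N)`: the minimum size of a multicut. -/
noncomputable def Network.MC (N : Network) : ℕ :=
  sInf {n : ℕ | ∃ M : Set N.Edge, N.IsMulticut M ∧ M.ncard = n}

/-- A network code over the alphabet `A` which is a solution: block length `b`, message lengths
`a i`; for every choice `x` of the messages the edge `e` carries the block `y x e`, which is a
function of the blocks on the edges entering the tail of `e` and of the messages held there, and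
each sink recovers its message from the blocks on its incoming edges. -/
structure Code (N : Network) (A : Type) where
  b : ℕ
  b_pos : 0 < b
  a : N.I → ℕ
  y : ((i : N.I) → Fin (a i) → A) → N.Edge → Fin b → A
  local_enc : ∀ (e : N.Edge) (x x' : (i : N.I) → Fin (a i) → A),
    (∀ e' : N.Edge, N.head e' = N.tail e → y x e' = y x' e') →
    (∀ i, N.s i = N.tail e → x i = x' i) → y x e = y x' e
  decode : ∀ (i : N.I) (x x' : (i : N.I) → Fin (a i) → A),
    (∀ e : N.Edge, N.head e = N.t i → y x e = y x' e) → x i = x' i

/-- the rate of a code -/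
noncomputable def Code.rate {N : Network} {A : Type} (c : Code N A) : ℝ≥0∞ :=
  ((∑ i, c.a i : ℕ) : ℝ≥0∞) / (c.b : ℝ≥0∞)

/-- `R(N)`: the supremum of the rates of all solutions, over all finite alphabets with at least
two letters. -/
noncomputable def Network.R (N : Network) : ℝ≥0∞ :=
  ⨆ (A : Type) (_ : Finite A) (_ : Nontrivial A) (c : Code N A), c.rate

/-! ### The networks -/

section Construction

variable (L q n : ℕ)

/-- capacitated nodes: a layer and a vector indexed by the pairs of layers -/
abbrev Node : Type := Fin L × (Fin L × Fin L → Fin q)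

variable {L q}

/-- an arrow from layer `i` to layer `j > i` changes exactly the coordinate `(i, j)` -/
def NAdj (u v : Node L q) : Prop :=
  u.1 < v.1 ∧ (∀ e, e ≠ (u.1, v.1) → v.2 e = u.2 e) ∧ v.2 (u.1, v.1) ≠ u.2 (u.1, v.1)

def NR : Node L q → Node L q → Prop := Relation.ReflTransGen NAdj

theorem NR.inv {a w : Node L q} (h : NR a w) :
    a.1 ≤ w.1 ∧ ∀ p p' : Fin L, (w.1 ≤ p ∨ p < a.1 ∨ w.1 < p') → w.2 (p, p') = a.2 (p, p') := by
  induction h with
  | refl => exact ⟨le_refl _, fun _ _ _ => rfl⟩
  | @tail w w' _ hstep ih =>
    obtain ⟨h1, h2, _⟩ := hstep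
    obtain ⟨ih1, ih2⟩ := ih
    refine ⟨ih1.trans h1.le, fun p p' h => ?_⟩
    rcases h with h | h | h
    · rw [h2 (p, p') (by
        intro heq
        have : p = w.1 := congrArg Prod.fst heq
        rw [this] at h
        exact absurd h1 (not_lt.mpr h)), ih2 p p' (Or.inl (h1.le.trans h))]
    · rw [h2 (p, p') (by
        intro heq
        have : p = w.1 := congrArg Prod.fst heq
        rw [this] at h
        exact absurd h (not_lt.mpr ih1)), ih2 p p' (Or.inr (Or.inl h))]
    · rw [h2 (p, p') (by
        intro heq
        have : p' = w'.1 := congrArg Prod.snd heq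
        rw [this] at h
        exact lt_irrefl _ h), ih2 p p' (Or.inr (Or.inr (h1.trans h)))]

theorem NR.lt {a w : Node L q} (h : NR a w) (hne : a ≠ w) : a.1 < w.1 := by
  rcases Relation.ReflTransGen.cases_head h with h1 | ⟨c, h1, h2⟩
  · exact absurd h1 hne
  · exact h1.1.trans_le (NR.inv h2).1

/-- the key property: if `w` reaches `v` and `v` reaches `c`, then every directed path from `w`
to `c` passes through `v` -/
theorem avoid {w v c : Node L q} (h1 : NR w v) (h2 : NR v c) (hwv : w ≠ v) (hcv : c ≠ v)
    (h : Relation.ReflTransGen (fun u u' : Node L q => NAdj u u' ∧ u' ≠ v) w c) : False := by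
  have hl1 : w.1 < v.1 := h1.lt hwv
  have hl2 : v.1 < c.1 := h2.lt (Ne.symm hcv)
  have cross : ∀ w : Node L q,
      Relation.ReflTransGen (fun u u' : Node L q => NAdj u u' ∧ u' ≠ v) w c →
      w.1 < v.1 → ∃ u u', NR w u ∧ NAdj u u' ∧ u' ≠ v ∧ u.1 < v.1 ∧ v.1 ≤ u'.1 ∧ NR u' c := by
    intro w h
    induction h using Relation.ReflTransGen.head_induction_on with
    | refl => intro hw; exact absurd hl2 (not_lt.mpr hw.le)
    | @head w w1 hstep hrest ih =>
      intro hw
      by_cases hw1 : w1.1 < v.1
      · obtain ⟨u, u', h3, h4⟩ := ih hw1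
        exact ⟨u, u', Relation.ReflTransGen.head hstep.1 h3, h4⟩
      · refine ⟨w, w1, Relation.ReflTransGen.refl, hstep.1, hstep.2, hw, not_lt.mp hw1, ?_⟩
        exact Relation.ReflTransGen.mono (fun _ _ h => h.1) _ _ hrest
  obtain ⟨u, u', hwu, huu, hu'v, hul, hu'l, hu'c⟩ := cross w h hl1
  have hwu' : NR w u' := Relation.ReflTransGen.tail hwu huu
  rcases lt_or_eq_of_le hu'l with hlt | heq
  · have e1 := (NR.inv hwu).2 u.1 u'.1 (Or.inl le_rfl)
    have e2 := (NR.inv hu'c).2 u.1 u'.1 (Or.inr (Or.inl huu.1))
    have e3 := (NR.inv h1).2 u.1 u'.1 (Or.inr (Or.inr hlt))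
    have e4 := (NR.inv h2).2 u.1 u'.1 (Or.inr (Or.inl hul))
    exact huu.2.2 (by rw [← e2, e4, e3, ← e1])
  · apply hu'v
    refine Prod.ext heq.symm (funext fun e => ?_)
    obtain ⟨p, p'⟩ := e
    by_cases hp : v.1 ≤ p
    · have e1 := (NR.inv hwu').2 p p' (Or.inl (by rw [← heq]; exact hp))
      have e2 := (NR.inv h1).2 p p' (Or.inl hp)
      rw [e1, e2]
    · push Not at hp
      have e1 := (NR.inv hu'c).2 p p' (Or.inr (Or.inl (by rw [← heq]; exact hp)))
      have e2 := (NR.inv h2).2 p p' (Or.inr (Or.inl hp))
      rw [← e1, e2]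

variable (L q)

/-- chains of `n + 1` nodes -/
abbrev Chain : Type := {p : Fin (n + 1) → Node L q // ∀ i : Fin n, NAdj (p i.castSucc) (p i.succ)}

noncomputable instance : Fintype (Chain L q n) := by
  classical
  infer_instance

/-- The network of a family `f` of chains of `n + 1` nodes: every node is split into two vertices
joined by an edge; the pair `p` leads from the first to the last node of the chain `f p`. -/
noncomputable abbrev net {L q n : ℕ} {J : Type} [Fintype J] (f : J → Chain L q n) : Network where
  V := Node L q × Bool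
  Adj u v := (u.2 = false ∧ v.2 = true ∧ u.1 = v.1) ∨ (u.2 = true ∧ v.2 = false ∧ NAdj u.1 v.1)
  I := J
  s p := ((f p).1 0, false)
  t p := ((f p).1 (Fin.last n), true)
  finV := inferInstance
  finI := inferInstance

variable {L q n} {J : Type} [Fintype J] {f : J → Chain L q n}

theorem chain_reach (p : Chain L q n) : ∀ i j : Fin (n + 1), i ≤ j → NR (p.1 i) (p.1 j) := by
  intro i j hij
  obtain ⟨k, hk⟩ := Nat.exists_eq_add_of_le (show i.val ≤ j.val from hij)
  induction k generalizing j with
  | zero =>
    have : i = j := Fin.ext (by omega)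
    rw [this]
    exact Relation.ReflTransGen.refl
  | succ k ih =>
    have hj : i.val + k < n + 1 := by omega
    have h1 := ih ⟨i.val + k, hj⟩ (by
      change i.val ≤ i.val + k
      omega) rfl
    have h2 := p.2 ⟨i.val + k, by omega⟩
    have e1 : (⟨i.val + k, by omega⟩ : Fin n).castSucc = ⟨i.val + k, hj⟩ := rfl
    have e2 : (⟨i.val + k, by omega⟩ : Fin n).succ = j := Fin.ext (by
      simp only [Fin.val_succ]; omega)
    rw [e1, e2] at h2
    exact Relation.ReflTransGen.tail h1 h2

theorem chain_lt (p : Chain L q n) {i j : Fin (n + 1)} (hij : i < j) :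
    (p.1 i).1 < (p.1 j).1 := by
  have h1 : i.val < n := by omega
  have h2 := p.2 ⟨i.val, h1⟩
  have h3 := chain_reach p (⟨i.val, h1⟩ : Fin n).succ j (by
    change i.val + 1 ≤ j.val
    omega)
  exact h2.1.trans_le h3.inv.1

theorem chain_inj (p : Chain L q n) : Function.Injective p.1 := by
  intro i j hij
  rcases lt_trichotomy i j with h | h | h
  · have := chain_lt p h
    rw [hij] at this
    exact absurd this (lt_irrefl _)
  · exact h
  · have := chain_lt p h
    rw [hij] at this
    exact absurd this (lt_irrefl _)

/-- the edge inside a node -/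
def inner (v : Node L q) : (net f).Edge := ⟨((v, false), (v, true)), Or.inl ⟨rfl, rfl, rfl⟩⟩

/-- two message tuples that agree outside the chains through `v` and give the same block inside
`v` are equal -/
theorem code_key {A : Type} (c : Code (net f) A) (v : Node L q)
    (x x' : (i : J) → Fin (c.a i) → A)
    (hout : ∀ p : J, v ∉ Set.range (f p).1 → x p = x' p)
    (hv : c.y x (inner v) = c.y x' (inner v)) : x = x' := by
  funext p
  by_cases hp : v ∈ Set.range (f p).1
  swap
  · exact hout p hp
  obtain ⟨j, hj⟩ := hp
  set z : Node L q := (f p).1 (Fin.last n) with hz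
  have hvz : NR v z := by
    rw [← hj]
    exact chain_reach (f p) j (Fin.last n) (Fin.le_last j)
  -- the blocks on nodes that reach z while avoiding v
  have key : ∀ (k : ℕ) (w : Node L q), w.1.val = k → w ≠ v → z ≠ v →
      Relation.ReflTransGen (fun u u' : Node L q => NAdj u u' ∧ u' ≠ v) w z →
      c.y x (inner w) = c.y x' (inner w) := by
    intro k
    induction k using Nat.strong_induction_on with
    | _ k ih =>
      intro w hk hwv hzv hwz
      apply c.local_enc
      · rintro ⟨⟨⟨u, bu⟩, ⟨u', bu'⟩⟩, hadj⟩ hhead
        have hu' : (u', bu') = ((w, false) : Node L q × Bool) := hhead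
        obtain ⟨hw', hb'⟩ : u' = w ∧ bu' = false := Prod.ext_iff.1 hu'
        subst hb'
        subst hw'
        rcases hadj with ⟨_, h2, _⟩ | ⟨h1, _, h3⟩
        · exact absurd h2 (by simp)
        · change bu = true at h1
          subst h1
          change NAdj u u' at h3
          -- the block on the link is a function of the block inside u
          apply c.local_enc
          · rintro ⟨⟨⟨t, bt⟩, ⟨t', bt'⟩⟩, hadj'⟩ hhead'
            have ht' : (t', bt') = ((u, true) : Node L q × Bool) := hhead'
            obtain ⟨rfl, rfl⟩ : t' = u ∧ bt' = true := Prod.ext_iff.1 ht'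
            rcases hadj' with ⟨h4, _, h5⟩ | ⟨_, h5, _⟩
            · change bt = false at h4
              subst h4
              change t = t' at h5
              subst h5
              by_cases htv : t = v
              · subst htv
                exact hv
              · have hlt : t.1.val < k := by
                  rw [← hk]
                  exact h3.1
                exact ih t.1.val hlt t rfl htv hzv
                  (Relation.ReflTransGen.head ⟨h3, hwv⟩ hwz)
            · exact absurd h5 (by simp)
          · intro p' hp'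
            have : (((f p').1 0, false) : Node L q × Bool) = (u, true) := hp'
            exact absurd (congrArg Prod.snd this) (by simp)
      · intro p' hp'
        have hp'' : (((f p').1 0, false) : Node L q × Bool) = (w, false) := hp'
        have hp0 : (f p').1 0 = w := congrArg Prod.fst hp''
        by_cases hpv : v ∈ Set.range (f p').1
        · exfalso
          obtain ⟨i, hi⟩ := hpv
          have hwv' : NR w v := by
            rw [← hp0, ← hi]
            exact chain_reach (f p') 0 i (Fin.zero_le i)
          exact avoid hwv' hvz hwv hzv hwz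
        · exact hout p' hpv
  apply c.decode p
  rintro ⟨⟨⟨u, bu⟩, ⟨u', bu'⟩⟩, hadj⟩ hhead
  have hu' : (u', bu') = ((z, true) : Node L q × Bool) := hhead
  obtain ⟨h5, rfl⟩ : u' = z ∧ bu' = true := Prod.ext_iff.1 hu'
  subst h5
  rcases hadj with ⟨h1, _, h3⟩ | ⟨_, h2, _⟩
  · change bu = false at h1
    subst h1
    change u = z at h3
    subst h3
    by_cases huv : z = v
    · subst huv
      exact hv
    · exact key z.1.val z rfl huv huv Relation.ReflTransGen.refl
  · exact absurd h2 (by simp)

open Classical in
/-- the messages of the chains through `v` fit into one block -/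
theorem node_bound {A : Type} [Finite A] [Nontrivial A] (c : Code (net f) A)
    (v : Node L q) :
    ∑ p : J, (if v ∈ Set.range (f p).1 then c.a p else 0) ≤ c.b := by
  have : Fintype A := Fintype.ofFinite A
  obtain ⟨a0⟩ : Nonempty A := inferInstance
  let ext : ((p : {p : J // v ∈ Set.range (f p).1}) → Fin (c.a p.1) → A) →
      ((p : J) → Fin (c.a p) → A) :=
    fun m p => if h : v ∈ Set.range (f p).1 then m ⟨p, h⟩ else fun _ => a0
  let F : ((p : {p : J // v ∈ Set.range (f p).1}) → Fin (c.a p.1) → A) →
      (Fin c.b → A) := fun m => c.y (ext m) (inner v)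
  have hF : Function.Injective F := by
    intro m m' hmm
    have h1 : ext m = ext m' := by
      apply code_key c v
      · intro p hp
        simp only [ext, dif_neg hp]
      · exact hmm
    funext p
    have h2 := congrFun h1 p.1
    simp only [ext, dif_pos p.2] at h2
    exact h2
  have h3 := Fintype.card_le_of_injective F hF
  rw [Fintype.card_pi] at h3
  simp only [Fintype.card_fun, Fintype.card_fin] at h3
  rw [Finset.prod_pow_eq_pow_sum] at h3
  have h4 := (Nat.pow_le_pow_iff_right Fintype.one_lt_card).1 h3
  rw [← Finset.sum_filter]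
  rw [Finset.sum_subtype (Finset.univ.filter fun p : J => v ∈ Set.range (f p).1)
    (p := fun p => v ∈ Set.range (f p).1) (by intro x; simp) (fun p => c.a p)]
  exact h4

/-- the total rate bound -/
theorem total_bound {A : Type} [Finite A] [Nontrivial A] (c : Code (net f) A) :
    (n + 1) * ∑ p : J, c.a p ≤ Fintype.card (Node L q) * c.b := by
  classical
  have h1 : ∑ v : Node L q, ∑ p : J, (if v ∈ Set.range (f p).1 then c.a p else 0)
      ≤ ∑ _v : Node L q, c.b := Finset.sum_le_sum fun v _ => node_bound c v
  rw [Finset.sum_comm] at h1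
  have h2 : ∀ p : J, ∑ v : Node L q, (if v ∈ Set.range (f p).1 then c.a p else 0)
      = (n + 1) * c.a p := by
    intro p
    rw [← Finset.sum_filter, Finset.sum_const]
    have : (Finset.univ.filter fun v : Node L q => v ∈ Set.range (f p).1)
        = Finset.univ.image (f p).1 := by
      ext v
      simp
    rw [this, Finset.card_image_of_injective _ (chain_inj (f p)), Finset.card_univ,
      Fintype.card_fin, smul_eq_mul]
  rw [Finset.sum_congr rfl fun p _ => h2 p, ← Finset.mul_sum, Finset.sum_const,
    Finset.card_univ, smul_eq_mul] at h1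
  exact h1

/-! ### The multicut bound -/

abbrev Om (L q : ℕ) : Type := Fin L × Fin L → Fin q

theorem alone_bound (A : Finset (Om L q)) (e : Fin L × Fin L) :
    q * (A.filter (fun x => ∀ x' ∈ A, (∀ e', e' ≠ e → x' e' = x e') → x' = x)).card
      ≤ Fintype.card (Om L q) := by
  classical
  set B := A.filter (fun x => ∀ x' ∈ A, (∀ e', e' ≠ e → x' e' = x e') → x' = x) with hB
  have h1 : (Finset.univ ×ˢ B : Finset (Fin q × Om L q)).card
      ≤ (Finset.univ : Finset (Om L q)).card := by
    apply Finset.card_le_card_of_injOn (fun y => Function.update y.2 e y.1)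
    · intro y _
      exact Finset.mem_coe.2 (Finset.mem_univ _)
    · rintro ⟨c, x⟩ hx ⟨c', x'⟩ hx' heq
      have hxB : x ∈ B := (Finset.mem_product.1 (Finset.mem_coe.1 hx)).2
      have hxB' : x' ∈ B := (Finset.mem_product.1 (Finset.mem_coe.1 hx')).2
      change Function.update x e c = Function.update x' e c' at heq
      have hc : c = c' := by
        have := congrFun heq e
        simpa using this
      have hxx : x' = x := by
        apply (Finset.mem_filter.1 hxB).2 x' (Finset.mem_filter.1 hxB').1
        intro e' he'
        have := congrFun heq e'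
        simpa [Function.update_of_ne he'] using this.symm
      rw [hc, hxx]
  rw [Finset.card_product, Finset.card_univ, Fintype.card_fin, Finset.card_univ] at h1
  exact h1

/-- `(l, x)` starts a chain of `j + 1` nodes inside `X` -/
def ST (X : Set (Node L q)) : ℕ → Fin L → Om L q → Prop
  | 0, l, x => (l, x) ∈ X
  | j + 1, l, x => (l, x) ∈ X ∧ ∃ l' : Fin L, l < l' ∧ ∃ x' : Om L q,
      (∀ e, e ≠ (l, l') → x' e = x e) ∧ x' (l, l') ≠ x (l, l') ∧ ST X j l' x'

theorem ST_chain (X : Set (Node L q)) (j : ℕ) : ∀ (l : Fin L) (x : Om L q), ST X j l x →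
    ∃ p : Fin (j + 1) → Node L q, p 0 = (l, x) ∧ (∀ i, p i ∈ X) ∧
      ∀ i : Fin j, NAdj (p i.castSucc) (p i.succ) := by
  induction j with
  | zero =>
    intro l x h
    exact ⟨fun _ => (l, x), rfl, fun _ => h, fun i => i.elim0⟩
  | succ j ih =>
    intro l x h
    obtain ⟨hx, l', hll, x', h1, h2, h3⟩ := h
    obtain ⟨p, hp0, hpX, hpA⟩ := ih l' x' h3
    refine ⟨Fin.cons (l, x) p, rfl, ?_, ?_⟩
    · intro i
      refine Fin.cases ?_ (fun j => ?_) i
      · exact hx
      · exact hpX j
    · intro i
      refine Fin.cases ?_ (fun j => ?_) i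
      · change NAdj (l, x) (p 0)
        rw [hp0]
        exact ⟨hll, h1, h2⟩
      · exact hpA j

open Classical in
/-- the exceptional vectors -/
noncomputable def alone (X : Set (Node L q)) (y : (Fin L × Fin L) × ℕ) : Finset (Om L q) :=
  (Finset.univ.filter (fun x => ST X y.2 y.1.2 x)).filter
    (fun x => ∀ x' ∈ Finset.univ.filter (fun x => ST X y.2 y.1.2 x),
      (∀ e', e' ≠ y.1 → x' e' = x e') → x' = x)

open Classical in
/-- all exceptional vectors -/
noncomputable def bad (X : Set (Node L q)) (n : ℕ) : Finset (Om L q) :=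
  ((Finset.univ : Finset (Fin L × Fin L)) ×ˢ Finset.range n).biUnion (alone X)

theorem bad_card (X : Set (Node L q)) (n : ℕ) :
    q * (bad X n).card ≤ L ^ 2 * n * Fintype.card (Om L q) := by
  classical
  calc q * (bad X n).card
      ≤ q * ∑ y ∈ (Finset.univ : Finset (Fin L × Fin L)) ×ˢ Finset.range n, (alone X y).card :=
        Nat.mul_le_mul_left _ Finset.card_biUnion_le
    _ = ∑ y ∈ (Finset.univ : Finset (Fin L × Fin L)) ×ˢ Finset.range n,
        q * (alone X y).card := Finset.mul_sum _ _ _
    _ ≤ ∑ _y ∈ (Finset.univ : Finset (Fin L × Fin L)) ×ˢ Finset.range n,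
        Fintype.card (Om L q) := by
        refine Finset.sum_le_sum fun y _ => ?_
        unfold alone
        convert alone_bound (Finset.univ.filter (fun x => ST X y.2 y.1.2 x)) y.1
    _ = L ^ 2 * n * Fintype.card (Om L q) := by
        rw [Finset.sum_const, Finset.card_product, Finset.card_univ, Fintype.card_prod,
          Fintype.card_fin, Finset.card_range, smul_eq_mul]
        ring

theorem ST_of_list (X : Set (Node L q)) (n : ℕ) (x : Om L q) (hx : x ∉ bad X n)
    (ls : List (Fin L)) : ∀ l : Fin L, (l :: ls).Pairwise (· < ·) → (∀ l' ∈ l :: ls, (l', x) ∈ X) →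
    ls.length ≤ n → ST X ls.length l x := by
  classical
  induction ls with
  | nil =>
    intro l _ h _
    exact h l (by simp)
  | cons l' ls ih =>
    intro l hp h hn
    have h1 := ih l' (List.pairwise_cons.1 hp).2 (fun l'' hl'' => h l'' (List.mem_cons_of_mem _ hl''))
      (by simp only [List.length_cons] at hn; omega)
    refine ⟨h l (by simp), l', (List.pairwise_cons.1 hp).1 l' (by simp), ?_⟩
    by_contra hcon
    push Not at hcon
    apply hx
    refine Finset.mem_biUnion.2 ⟨((l, l'), ls.length), Finset.mem_product.2
      ⟨Finset.mem_univ _, Finset.mem_range.2 (by simp only [List.length_cons] at hn; omega)⟩, ?_⟩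
    refine Finset.mem_filter.2 ⟨Finset.mem_filter.2 ⟨Finset.mem_univ _, h1⟩, ?_⟩
    intro x' hx' he
    by_contra hne
    refine hcon x' he ?_ (Finset.mem_filter.1 hx').2
    intro heq
    apply hne
    funext e'
    by_cases he' : e' = (l, l')
    · rw [he', heq]
    · exact he e' he'

open Classical in
/-- a set of nodes without chains of `n + 1` nodes is small -/
theorem X_bound (X : Finset (Node L q)) (hq : q = L ^ 3 * (n + 1)) (hL : 0 < L)
    (hX : ∀ p : Chain L q n, ∃ i, p.1 i ∉ X) :
    X.card ≤ (n + 1) * Fintype.card (Om L q) := by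
  have hq0 : 0 < q := by
    rw [hq]
    positivity
  set T := Fintype.card (Om L q) with hT
  set Bad : Finset (Om L q) := bad (X : Set (Node L q)) n with hBadd
  have hBc : q * Bad.card ≤ L ^ 2 * n * T := bad_card (X : Set (Node L q)) n
  have hXc : X.card = ∑ x : Om L q, (Finset.univ.filter (fun l : Fin L => (l, x) ∈ X)).card := by
    have h1 : X.card = ∑ v : Node L q, if v ∈ X then 1 else 0 := by
      rw [← Finset.card_filter]
      congr 1
      ext v
      simp
    rw [h1, Fintype.sum_prod_type_right]
    refine Finset.sum_congr rfl fun x _ => ?_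
    rw [Finset.card_filter]
  have hNx : ∀ x : Om L q, (Finset.univ.filter (fun l : Fin L => (l, x) ∈ X)).card ≤
      n + L * (if x ∈ Bad then 1 else 0) := by
    intro x
    by_cases hx : x ∈ Bad
    · rw [if_pos hx]
      have := Finset.card_le_univ (Finset.univ.filter (fun l : Fin L => (l, x) ∈ X))
      rw [Fintype.card_fin] at this
      omega
    · rw [if_neg hx]
      by_contra hcon
      obtain ⟨S, hS1, hS2⟩ := Finset.exists_subset_card_eq
        (show n + 1 ≤ (Finset.univ.filter (fun l : Fin L => (l, x) ∈ X)).card by omega)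
      have hlen : (S.sort (· ≤ ·)).length = n + 1 := by
        rw [Finset.length_sort, hS2]
      obtain ⟨l, ls, hls⟩ : ∃ l ls, S.sort (· ≤ ·) = l :: ls := by
        cases h : S.sort (· ≤ ·) with
        | nil =>
          rw [h] at hlen
          simp at hlen
        | cons a b => exact ⟨a, b, rfl⟩
      have hlsn : ls.length = n := by
        rw [hls] at hlen
        simpa using hlen
      have hmem : ∀ l', l' ∈ l :: ls ↔ l' ∈ S := by
        intro l'
        rw [← hls, Finset.mem_sort]
      have hpw : (l :: ls).Pairwise (· < ·) := by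
        rw [← hls]
        exact (Finset.sortedLT_sort S).pairwise
      have h1 := ST_of_list (X : Set (Node L q)) n x hx ls l hpw (by
        intro l' hl'
        exact Finset.mem_coe.2 (Finset.mem_filter.1 (hS1 ((hmem l').1 hl'))).2) hlsn.le
      rw [hlsn] at h1
      obtain ⟨p, _, hpX, hpA⟩ := ST_chain (X : Set (Node L q)) n l x h1
      obtain ⟨i, hi⟩ := hX ⟨p, hpA⟩
      exact hi (Finset.mem_coe.1 (hpX i))
  have hX2 : X.card ≤ n * T + L * Bad.card := by
    rw [hXc]
    refine (Finset.sum_le_sum fun x _ => hNx x).trans ?_
    rw [Finset.sum_add_distrib, Finset.sum_const, Finset.card_univ, ← Finset.mul_sum,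
      smul_eq_mul]
    have : ∑ x : Om L q, (if x ∈ Bad then 1 else 0) = Bad.card := by
      rw [← Finset.card_filter]
      congr 1
      ext v
      simp
    rw [this, mul_comm]
  have h5 : q * X.card ≤ q * ((n + 1) * T) := by
    calc q * X.card ≤ q * (n * T + L * Bad.card) := Nat.mul_le_mul_left _ hX2
      _ = q * (n * T) + L * (q * Bad.card) := by ring
      _ ≤ q * (n * T) + L * (L ^ 2 * n * T) :=
          Nat.add_le_add_left (Nat.mul_le_mul_left _ hBc) _
      _ = q * (n * T) + (L ^ 3 * n) * T := by ring
      _ ≤ q * (n * T) + q * T := by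
          apply Nat.add_le_add_left
          apply Nat.mul_le_mul_right
          rw [hq]
          exact Nat.mul_le_mul_left _ (Nat.le_succ n)
      _ = q * ((n + 1) * T) := by ring
  exact Nat.le_of_mul_le_mul_left h5 hq0

/-- a chain that avoids the tails of the edges in `M` connects its source to its sink -/
theorem chain_survives (M : Set (net f).Edge) (j : J) (p : Chain L q n) (hj : f j = p)
    (h : ∀ e ∈ M, ∀ i, (Network.tail e).1 ≠ p.1 i) :
    Relation.ReflTransGen
      (fun u v => ∃ e : (net f).Edge, e ∉ M ∧ Network.tail e = u ∧ Network.head e = v)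
      ((net f).s j) ((net f).t j) := by
  have step1 : ∀ i : Fin (n + 1), (∃ e : (net f).Edge, e ∉ M ∧
      Network.tail e = (p.1 i, false) ∧ Network.head e = (p.1 i, true)) := by
    intro i
    exact ⟨inner (p.1 i), fun hM => h _ hM i rfl, rfl, rfl⟩
  have step2 : ∀ i : Fin n, (∃ e : (net f).Edge, e ∉ M ∧
      Network.tail e = (p.1 i.castSucc, true) ∧ Network.head e = (p.1 i.succ, false)) := by
    intro i
    exact ⟨⟨((p.1 i.castSucc, true), (p.1 i.succ, false)), Or.inr ⟨rfl, rfl, p.2 i⟩⟩,
      fun hM => h _ hM i.castSucc rfl, rfl, rfl⟩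
  have main : ∀ i : Fin (n + 1), Relation.ReflTransGen
      (fun u v => ∃ e : (net f).Edge, e ∉ M ∧ Network.tail e = u ∧ Network.head e = v)
      (p.1 0, false) (p.1 i, true) := by
    intro i
    induction i using Fin.induction with
    | zero => exact Relation.ReflTransGen.single (step1 0)
    | succ i ih => exact (ih.tail (step2 i)).tail (step1 i.succ)
  have := main (Fin.last n)
  change Relation.ReflTransGen _ ((f j).1 0, false) ((f j).1 (Fin.last n), true)
  rw [hj]
  exact this

theorem MC_bound (hf : Function.Surjective f) (hq : q = L ^ 3 * (n + 1)) (hL : 0 < L) :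
    L * Fintype.card (Om L q) ≤ (net f).MC + (n + 1) * Fintype.card (Om L q) := by
  classical
  have hne : {m : ℕ | ∃ M : Set (net f).Edge, (net f).IsMulticut M ∧
      M.ncard = m}.Nonempty := by
    refine ⟨(Set.univ : Set (net f).Edge).ncard, Set.univ, ?_, rfl⟩
    intro p hp
    rcases Relation.ReflTransGen.cases_head hp with h | ⟨c, ⟨e, he, _⟩, _⟩
    · have : (((f p).1 0, false) : Node L q × Bool)
          = (((f p).1 (Fin.last n), true)) := h
      exact absurd (congrArg Prod.snd this) (by simp)
    · exact he (Set.mem_univ _)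
  obtain ⟨M, hM, hMc⟩ := Nat.sInf_mem hne
  have hMC : (net f).MC = M.ncard := hMc.symm
  rw [hMC]
  have finE : Finite (net f).Edge := by
    unfold Network.Edge
    infer_instance
  set D : Set (Node L q) := (fun e : (net f).Edge => (Network.tail e).1) '' M with hD
  have hDc : D.ncard ≤ M.ncard := Set.ncard_image_le (Set.toFinite M)
  set X : Finset (Node L q) := Finset.univ.filter (fun v => v ∉ D) with hXd
  have hX : ∀ p : Chain L q n, ∃ i, p.1 i ∉ X := by
    intro p
    by_contra hcon
    push Not at hcon
    obtain ⟨j, hj⟩ := hf p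
    apply hM j
    apply chain_survives M j p hj
    intro e he i heq
    have h1 := (Finset.mem_filter.1 (hcon i)).2
    apply h1
    rw [← heq]
    exact ⟨e, he, rfl⟩
  have h1 := X_bound X hq hL hX
  have h2 : Fintype.card (Node L q) = D.ncard + X.card := by
    have h3 : D.toFinset.card = D.ncard := (Set.ncard_eq_toFinset_card' D).symm
    rw [← h3, ← Finset.card_univ]
    have h4 : X = D.toFinsetᶜ := by
      ext v
      simp [hXd]
    rw [h4, Finset.card_compl, ← Finset.card_univ]
    have := Finset.card_le_univ D.toFinset
    rw [← Finset.card_univ] at this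
    omega
  have h6 : Fintype.card (Node L q) = L * Fintype.card (Om L q) := by
    rw [Fintype.card_prod, Fintype.card_fin]
  rw [← h6, h2]
  omega

theorem net_acyclic : (net f).Acyclic := by
  have key : ∀ u v : Node L q × Bool, Relation.TransGen (net f).Adj u v →
      2 * u.1.1.val + (if u.2 then 1 else 0) < 2 * v.1.1.val + (if v.2 then 1 else 0) := by
    intro u v h
    have step : ∀ u v : Node L q × Bool, (net f).Adj u v →
        2 * u.1.1.val + (if u.2 then 1 else 0) < 2 * v.1.1.val + (if v.2 then 1 else 0) := by
      rintro u v (⟨h1, h2, h3⟩ | ⟨h1, h2, h3⟩)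
      · rw [h1, h2, h3]
        simp
      · rw [h1, h2]
        have : u.1.1.val < v.1.1.val := h3.1
        simp
        omega
    induction h with
    | single h => exact step _ _ h
    | tail _ h ih => exact ih.trans (step _ _ h)
  intro v hv
  exact lt_irrefl _ (key v v hv)

theorem R_bound (hL : L = 2 * (n + 1)) :
    (net f).R ≤ ((2 * Fintype.card (Om L q) : ℕ) : ℝ≥0∞) := by
  refine iSup_le fun A => iSup_le fun _ => iSup_le fun _ => iSup_le fun c => ?_
  have h1 := total_bound c
  have h2 : Fintype.card (Node L q) = (n + 1) * (2 * Fintype.card (Om L q)) := by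
    rw [Fintype.card_prod, Fintype.card_fin, hL]
    ring
  rw [h2, mul_assoc] at h1
  have h3 : ∑ p : J, c.a p ≤ 2 * Fintype.card (Om L q) * c.b :=
    Nat.le_of_mul_le_mul_left h1 (Nat.succ_pos n)
  unfold Code.rate
  apply ENNReal.div_le_of_le_mul
  exact_mod_cast h3

end Construction

end Pool.Agent.Y942.NC
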